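import Pool.Agent.W544.KF.SFinal

/-!
# Factors of Schur finite motives are Schur finite

Let `D` be a symmetric monoidal `F`-linear category, `F` a field of characteristic `0`, with
`End(𝟙) = F`.  `SchurFinite F M`: for some `n` a combination of products of transpositions which is
not zero in the group algebra `F[S_(n+1)]` acts as zero on the tensor power of `M` with `n + 1`
factors.  (The kernel of the action of `F[S_(n+1)]` is a two-sided ideal, so it is not zero if and
only if it contains the idempotent `e_λ` of some partition `λ` of `n + 1`, i.e. `S_λ(M) = 0`.)

Let `N` be an object with a dual `N'` and an endomorphism `h` of nonzero trace.  We prove: if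
`M ⊗ N` is Schur finite, then `M` is Schur finite.  The object `M` is arbitrary.

This applies to `D = DM_gm(k)` with coefficients in a field `F` of characteristic `0`, to Chow
motives and to noncommutative motives.  Example: let a finite abelian group `G` act on smooth
varieties `X` and `Y` over `k` (which contains the roots of unity of order `|G|`), such that for
every character `χ` of `G` the `χ`-part of the cohomology of `Y` has Euler characteristic
`≠ 0` (for instance `G` acts freely on `Y` and the Euler characteristic of `Y` is not `0`).  The
motive of `(X × Y)/G` is the sum of the `M(X)^χ ⊗ M(Y)^(χ⁻¹)`, so if it is Schur finite then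
`M(X)` is Schur finite.  So for isotrivial families over a curve `B` with Euler characteristic
`≠ 0`, trivialised by a finite abelian étale covering of `B`, the total space is Schur finite if
and only if the fibre is.  (For a product `X × Y` the statement is trivial, since `M(X)` is a
direct summand of `M(X × Y)`.)

The proof uses the traces of `h` on the symmetric and alternating powers of `N`: by Newton's
identities they do not all vanish in high degrees.
-/

open CategoryTheory MonoidalCategory

namespace Pool.Agent.Results.MP_fc2ced_ag.TensorFactors

open Pool.Agent.W544.KF

universe w v u

theorem result (F : Type w) [Field F] [CharZero F] (D : Type u) [Category.{v} D]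
    [MonoidalCategory D] [SymmetricCategory D] [Preadditive D] [MonoidalPreadditive D]
    [Linear F D] [MonoidalLinear F D]
    (hF : ∀ f : 𝟙_ D ⟶ 𝟙_ D, ∃ c : F, f = c • 𝟙 (𝟙_ D)) (hne : 𝟙 (𝟙_ D) ≠ 0)
    (M N N' : D) [ExactPairing N N'] (h : N ⟶ N) (hT : TT N N' h ≠ 0)
    (hS : SchurFinite F (M ⊗ N)) : SchurFinite F M :=
  division F D hF hne M N N' h hT hS

end Pool.Agent.Results.MP_fc2ced_ag.TensorFactors
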